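import Mathlib

set_option autoImplicit false

namespace Pool.Agent.Results.MP_ae2f9f_co.LeastSize

open Finset

/-- The cell `[a,a+1] × [b,b+1]` is represented by `(a,b)`. Two cells are adjacent when they share
a side. -/
def grid : SimpleGraph (ℤ × ℤ) where
  Adj p q := (p.2 = q.2 ∧ (q.1 = p.1 + 1 ∨ p.1 = q.1 + 1)) ∨
    (p.1 = q.1 ∧ (q.2 = p.2 + 1 ∨ p.2 = q.2 + 1))
  symm := ⟨fun p q h => by omega⟩
  loopless := ⟨fun p h => by omega⟩

/-- `P` is an `n`-omino: it has `n` cells and is connected under edge-adjacency. -/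
def IsOmino (n : ℕ) (P : Finset (ℤ × ℤ)) : Prop :=
  P.card = n ∧ (grid.induce (P : Set (ℤ × ℤ))).Connected

/-- The `a`-coordinates of the cells of the row of `P` at height `b`. -/
def row (P : Finset (ℤ × ℤ)) (b : ℤ) : Set ℤ := {a | (a, b) ∈ P}

/-- The `b`-coordinates of the cells of the column of `P` at abscissa `a`. -/
def col (P : Finset (ℤ × ℤ)) (a : ℤ) : Set ℤ := {b | (a, b) ∈ P}

/-- Property (S): no nonempty row and no nonempty column is a single strip (its set of coordinates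
is not an interval of integers). -/
def PropS (P : Finset (ℤ × ℤ)) : Prop :=
  (∀ b, (row P b).Nonempty → ¬ (row P b).OrdConnected) ∧
    ∀ a, (col P a).Nonempty → ¬ (col P a).OrdConnected

/-! ### Lower bound -/

/-- reflection in the diagonal -/
def sw (P : Finset (ℤ × ℤ)) : Finset (ℤ × ℤ) := P.image Prod.swap

theorem mem_sw {P : Finset (ℤ × ℤ)} {a b : ℤ} : (a, b) ∈ sw P ↔ (b, a) ∈ P := by
  simp [sw]

/-- a gap in a nonempty row -/
theorem gap {P : Finset (ℤ × ℤ)} (h : PropS P) {b : ℤ} {a : ℤ} (hab : (a, b) ∈ P) :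
    ∃ x y z, x < y ∧ y < z ∧ (x, b) ∈ P ∧ (y, b) ∉ P ∧ (z, b) ∈ P := by
  have h1 := h.1 b ⟨a, hab⟩
  rw [Set.ordConnected_def] at h1
  push Not at h1
  obtain ⟨x, hx, z, hz, h2⟩ := h1
  rw [Set.not_subset] at h2
  obtain ⟨y, ⟨hxy, hyz⟩, hy⟩ := h2
  refine ⟨x, y, z, lt_of_le_of_ne hxy ?_, lt_of_le_of_ne hyz ?_, hx, hy, hz⟩
  · rintro rfl; exact hy hx
  · rintro rfl; exact hy hz

theorem propS_sw {P : Finset (ℤ × ℤ)} (h : PropS P) : PropS (sw P) := by
  have e1 : ∀ b, row (sw P) b = col P b := fun b => by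
    ext a; simp only [row, col, Set.mem_ofPred_eq, mem_sw]
  have e2 : ∀ b, col (sw P) b = row P b := fun b => by
    ext a; simp only [row, col, Set.mem_ofPred_eq, mem_sw]
  refine ⟨fun b => ?_, fun a => ?_⟩
  · rw [e1]; exact h.2 b
  · rw [e2]; exact h.1 a

/-- In every nonempty row at least two cells have no right neighbour. -/
theorem two_ends {P : Finset (ℤ × ℤ)} (h : PropS P) {b : ℤ} (hb : b ∈ P.image Prod.snd) :
    2 ≤ #{p ∈ {p ∈ P | (p.1 + 1, p.2) ∉ P} | p.2 = b} := by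
  obtain ⟨⟨a, b'⟩, hab, rfl⟩ := Finset.mem_image.mp hb
  simp only at *
  obtain ⟨x, y, z, hxy, hyz, hx, hy, hz⟩ := gap h hab
  -- the largest cell to the left of the gap and the last cell of the row
  have hA : ({c ∈ P.image Prod.fst | (c, b') ∈ P ∧ c < y}).Nonempty :=
    ⟨x, by simp only [Finset.mem_filter, Finset.mem_image]; exact ⟨⟨_, hx, rfl⟩, hx, hxy⟩⟩
  have hB : ({c ∈ P.image Prod.fst | (c, b') ∈ P}).Nonempty :=
    ⟨x, by simp only [Finset.mem_filter, Finset.mem_image]; exact ⟨⟨_, hx, rfl⟩, hx⟩⟩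
  obtain ⟨u, hu, hu'⟩ := Finset.exists_max_image _ id hA
  obtain ⟨v, hv, hv'⟩ := Finset.exists_max_image _ id hB
  simp only [Finset.mem_filter, Finset.mem_image, id_eq] at hu hu' hv hv'
  have hzv : z ≤ v := hv' z ⟨⟨_, hz, rfl⟩, hz⟩
  refine Finset.one_lt_card.mpr ⟨(u, b'), ?_, (v, b'), ?_, ?_⟩
  · simp only [Finset.mem_filter, and_true]
    refine ⟨hu.2.1, fun h' => ?_⟩
    rcases lt_or_eq_of_le (show u + 1 ≤ y by omega) with h'' | h''
    · have := hu' (u + 1) ⟨⟨_, h', rfl⟩, h', h''⟩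
      omega
    · exact hy (h'' ▸ h')
  · simp only [Finset.mem_filter, and_true]
    refine ⟨hv.2, fun h' => ?_⟩
    have := hv' (v + 1) ⟨⟨_, h', rfl⟩, h'⟩
    omega
  · simp only [ne_eq, Prod.mk.injEq, and_true]
    omega

/-- cells with a right neighbour -/
def H (P : Finset (ℤ × ℤ)) : Finset (ℤ × ℤ) := {p ∈ P | (p.1 + 1, p.2) ∈ P}

/-- cells with an upper neighbour -/
def V (P : Finset (ℤ × ℤ)) : Finset (ℤ × ℤ) := {p ∈ P | (p.1, p.2 + 1) ∈ P}

theorem H_le {P : Finset (ℤ × ℤ)} (h : PropS P) : #(H P) + 2 * #(P.image Prod.snd) ≤ #P := by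
  have h1 : #{p ∈ P | (p.1 + 1, p.2) ∉ P} =
      ∑ b ∈ P.image Prod.snd, #{p ∈ {p ∈ P | (p.1 + 1, p.2) ∉ P} | p.2 = b} :=
    Finset.card_eq_sum_card_fiberwise fun p hp =>
      Finset.mem_image_of_mem _ (Finset.mem_filter.mp hp).1
  have h2 : ∑ _b ∈ P.image Prod.snd, 2 ≤
      ∑ b ∈ P.image Prod.snd, #{p ∈ {p ∈ P | (p.1 + 1, p.2) ∉ P} | p.2 = b} :=
    Finset.sum_le_sum fun b hb => two_ends h hb
  rw [Finset.sum_const, smul_eq_mul] at h2
  have h3 := Finset.card_filter_add_card_filter_not (s := P) (fun p => (p.1 + 1, p.2) ∈ P)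
  unfold H
  omega

theorem sw_card (P : Finset (ℤ × ℤ)) : #(sw P) = #P :=
  Finset.card_image_of_injective _ Prod.swap_injective

theorem sw_snd (P : Finset (ℤ × ℤ)) : (sw P).image Prod.snd = P.image Prod.fst := by
  rw [sw, Finset.image_image]
  rfl

theorem sw_fst (P : Finset (ℤ × ℤ)) : (sw P).image Prod.fst = P.image Prod.snd := by
  rw [sw, Finset.image_image]
  rfl

theorem V_le {P : Finset (ℤ × ℤ)} (h : PropS P) : #(V P) + 2 * #(P.image Prod.fst) ≤ #P := by
  have h1 := H_le (propS_sw h)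
  rw [sw_card, sw_snd] at h1
  have h2 : #(H (sw P)) = #(V P) := by
    have : H (sw P) = (V P).image Prod.swap := by
      ext ⟨a, b⟩
      simp only [H, V, Finset.mem_filter, mem_sw, Finset.mem_image, Prod.exists, Prod.swap_prod_mk,
        Prod.mk.injEq]
      constructor
      · rintro ⟨h1, h2⟩
        exact ⟨b, a, ⟨h1, h2⟩, rfl, rfl⟩
      · rintro ⟨_, _, ⟨h1, h2⟩, rfl, rfl⟩
        exact ⟨h1, h2⟩
    rw [this, Finset.card_image_of_injective _ Prod.swap_injective]
  omega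

/-- A connected set has at least `n - 1` pairs of adjacent cells. -/
theorem card_le_edges {P : Finset (ℤ × ℤ)} (h : (grid.induce (P : Set (ℤ × ℤ))).Connected) :
    #P ≤ #(H P) + #(V P) + 1 := by
  have h1 := h.card_vert_le_card_edgeSet_add_one
  have h2 : Nat.card (P : Set (ℤ × ℤ)) = #P := by simp
  rw [h2] at h1
  set S : Finset (Sym2 (ℤ × ℤ)) := (H P).image (fun p => s(p, (p.1 + 1, p.2))) ∪
    (V P).image (fun p => s(p, (p.1, p.2 + 1))) with hS
  have h3 : ∀ e : (grid.induce (P : Set (ℤ × ℤ))).edgeSet,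
      (e : Sym2 (P : Set (ℤ × ℤ))).map Subtype.val ∈ S := by
    rintro ⟨e, he⟩
    induction e using Sym2.ind with
    | _ p q =>
      rw [SimpleGraph.mem_edgeSet] at he
      simp only [SimpleGraph.comap_adj, Function.Embedding.subtype_apply] at he
      obtain ⟨⟨a, b⟩, hp⟩ := p
      obtain ⟨⟨c, d⟩, hq⟩ := q
      simp only [grid] at he
      have hp' : (a, b) ∈ P := hp
      have hq' : (c, d) ∈ P := hq
      rw [Sym2.map_mk]
      simp only [hS, H, V, Finset.mem_union, Finset.mem_image, Finset.mem_filter]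
      rcases he with ⟨rfl, rfl | rfl⟩ | ⟨rfl, rfl | rfl⟩
      · exact Or.inl ⟨(a, b), ⟨hp', hq'⟩, rfl⟩
      · exact Or.inl ⟨(c, b), ⟨hq', hp'⟩, Sym2.eq_swap⟩
      · exact Or.inr ⟨(a, b), ⟨hp', hq'⟩, rfl⟩
      · exact Or.inr ⟨(a, d), ⟨hq', hp'⟩, Sym2.eq_swap⟩
  have h4 : Nat.card (grid.induce (P : Set (ℤ × ℤ))).edgeSet ≤ #S := by
    have : Nat.card (S : Set (Sym2 (ℤ × ℤ))) = #S := by simp
    rw [← this]
    refine Nat.card_le_card_of_injective
      (fun e => (⟨(e : Sym2 (P : Set (ℤ × ℤ))).map Subtype.val, h3 e⟩ :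
        (S : Set (Sym2 (ℤ × ℤ))))) ?_
    intro e e' he
    simp only [Subtype.mk.injEq] at he
    exact Subtype.ext (Sym2.map.injective Subtype.val_injective he)
  have h5 : #S ≤ #(H P) + #(V P) :=
    (Finset.card_union_le _ _).trans (Nat.add_le_add Finset.card_image_le Finset.card_image_le)
  omega

/-- The set of occupied columns of a connected set is an interval. -/
theorem mem_between {P : Finset (ℤ × ℤ)} (h : (grid.induce (P : Set (ℤ × ℤ))).Connected)
    {x y z : ℤ} (hxy : x < y) (hyz : y < z) (hx : x ∈ P.image Prod.fst)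
    (hz : z ∈ P.image Prod.fst) : y ∈ P.image Prod.fst := by
  by_contra hy
  obtain ⟨p, hp, rfl⟩ := Finset.mem_image.mp hx
  obtain ⟨q, hq, rfl⟩ := Finset.mem_image.mp hz
  have h1 := h.preconnected ⟨p, hp⟩ ⟨q, hq⟩
  rw [SimpleGraph.reachable_iff_reflTransGen] at h1
  have h2 : ∀ r : (P : Set (ℤ × ℤ)), Relation.ReflTransGen (grid.induce (P : Set (ℤ × ℤ))).Adj
      ⟨p, hp⟩ r → (r : ℤ × ℤ).1 < y := by
    intro r hr
    induction hr with
    | refl => exact hxy
    | @tail s t _ hst ih =>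
      obtain ⟨⟨a, b⟩, hs⟩ := s
      obtain ⟨⟨c, d⟩, ht⟩ := t
      simp only [SimpleGraph.comap_adj, Function.Embedding.subtype_apply, grid] at hst
      simp only at ih ⊢
      have hne : c ≠ y := by
        rintro rfl
        exact hy (Finset.mem_image.mpr ⟨_, ht, rfl⟩)
      omega
  have := h2 ⟨q, hq⟩ h1
  simp only at this
  omega

/-- The number of holes of the bounding box. -/
theorem holes {P : Finset (ℤ × ℤ)} (hc : (grid.induce (P : Set (ℤ × ℤ))).Connected)
    (h : PropS P) : #P + #(P.image Prod.snd) + 2 ≤ #(P.image Prod.fst) * #(P.image Prod.snd) := by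
  classical
  set X := P.image Prod.fst with hX
  set Y := P.image Prod.snd with hY
  have hne : P.Nonempty := by
    obtain ⟨⟨p, hp⟩⟩ := hc.nonempty
    exact ⟨p, hp⟩
  have hXne : X.Nonempty := hne.image _
  obtain ⟨x₀, hx₀, hx₀'⟩ := Finset.exists_min_image X id hXne
  obtain ⟨x₁, hx₁, hx₁'⟩ := Finset.exists_max_image X id hXne
  simp only [id_eq] at hx₀' hx₁'
  -- one interior hole in every row
  have key : ∀ b ∈ Y, ∃ y, y ∈ X ∧ (y, b) ∉ P ∧ x₀ < y ∧ y < x₁ := by
    intro b hb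
    obtain ⟨⟨a, b'⟩, hab, rfl⟩ := Finset.mem_image.mp hb
    obtain ⟨x, y, z, hxy, hyz, hx, hy, hz⟩ := gap h hab
    have hxX : x ∈ X := Finset.mem_image.mpr ⟨_, hx, rfl⟩
    have hzX : z ∈ X := Finset.mem_image.mpr ⟨_, hz, rfl⟩
    exact ⟨y, mem_between hc hxy hyz hxX hzX, hy, lt_of_le_of_lt (hx₀' x hxX) hxy,
      lt_of_lt_of_le hyz (hx₁' z hzX)⟩
  choose! f hf using key
  -- a hole in the extreme columns
  have ext : ∀ x ∈ X, ∃ b ∈ Y, (x, b) ∉ P := by
    intro x hx
    obtain ⟨⟨x', b⟩, hxb, rfl⟩ := Finset.mem_image.mp hx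
    have hs : (b, x') ∈ sw P := mem_sw.mpr hxb
    obtain ⟨u, v, w, huv, hvw, hu, hv, hw⟩ := gap (propS_sw h) hs
    rw [mem_sw] at hu hv hw
    have hc' : (grid.induce ((sw P : Finset (ℤ × ℤ)) : Set (ℤ × ℤ))).Connected := by
      let e : (grid.induce (P : Set (ℤ × ℤ))) ≃g
          (grid.induce ((sw P : Finset (ℤ × ℤ)) : Set (ℤ × ℤ))) :=
        { toFun := fun p => ⟨Prod.swap p.1, by
            have := p.2
            rw [Finset.mem_coe] at this ⊢
            exact Finset.mem_image_of_mem _ this⟩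
          invFun := fun p => ⟨Prod.swap p.1, by
            have := p.2
            rw [Finset.mem_coe] at this ⊢
            obtain ⟨q, hq, hq'⟩ := Finset.mem_image.mp this
            rw [← hq', Prod.swap_swap]
            exact hq⟩
          left_inv := fun p => by simp
          right_inv := fun p => by simp
          map_rel_iff' := by
            rintro ⟨⟨a, b⟩, ha⟩ ⟨⟨c, d⟩, hc⟩
            simp only [SimpleGraph.comap_adj, Function.Embedding.subtype_apply, grid,
              Equiv.coe_fn_mk, Prod.swap_prod_mk]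
            constructor
            · rintro (h | h)
              · exact Or.inr h
              · exact Or.inl h
            · rintro (h | h)
              · exact Or.inr h
              · exact Or.inl h }
      exact e.connected_iff.mp hc
    have h1 := mem_between hc' huv hvw
      (Finset.mem_image.mpr ⟨_, mem_sw.mpr hu, rfl⟩) (Finset.mem_image.mpr ⟨_, mem_sw.mpr hw, rfl⟩)
    rw [sw_fst] at h1
    exact ⟨v, h1, hv⟩
  obtain ⟨b₀, hb₀, hb₀'⟩ := ext x₀ hx₀
  obtain ⟨b₁, hb₁, hb₁'⟩ := ext x₁ hx₁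
  have hYne : Y.Nonempty := hne.image _
  obtain ⟨bb, hbb⟩ := hYne
  have hx01 : x₀ < x₁ := (hf bb hbb).2.2.1.trans (hf bb hbb).2.2.2
  have hsub : P ⊆ X ×ˢ Y := by
    intro p hp
    exact Finset.mem_product.mpr ⟨Finset.mem_image_of_mem _ hp, Finset.mem_image_of_mem _ hp⟩
  set Z : Finset (ℤ × ℤ) := insert (x₀, b₀) (insert (x₁, b₁) (Y.image fun b => (f b, b))) with hZ
  have hZc : #Z = #Y + 2 := by
    rw [hZ, Finset.card_insert_of_notMem, Finset.card_insert_of_notMem,
      Finset.card_image_of_injective]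
    · intro b b' hbb'
      exact (Prod.mk.inj hbb').2
    · rw [Finset.mem_image]
      rintro ⟨b, hb, hb'⟩
      have h1 := (Prod.mk.inj hb').1
      have h2 := (hf b hb).2.2.2
      omega
    · rw [Finset.mem_insert, Finset.mem_image]
      rintro (h' | ⟨b, hb, hb'⟩)
      · have h1 := (Prod.mk.inj h').1
        omega
      · have h1 := (Prod.mk.inj hb').1
        have h2 := (hf b hb).2.2.1
        omega
  have hZs : Z ⊆ (X ×ˢ Y) \ P := by
    intro p hp
    rw [hZ, Finset.mem_insert, Finset.mem_insert, Finset.mem_image] at hp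
    rw [Finset.mem_sdiff, Finset.mem_product]
    rcases hp with rfl | rfl | ⟨b, hb, rfl⟩
    · exact ⟨⟨hx₀, hb₀⟩, hb₀'⟩
    · exact ⟨⟨hx₁, hb₁⟩, hb₁'⟩
    · exact ⟨⟨(hf b hb).1, hb⟩, (hf b hb).2.1⟩
  have h1 := Finset.card_le_card hZs
  have h2 := Finset.card_sdiff_add_card_eq_card hsub
  rw [Finset.card_product] at h2
  omega

theorem lower {n : ℕ} {P : Finset (ℤ × ℤ)} (h : IsOmino n P) (hS : PropS P) : 21 ≤ n := by
  obtain ⟨h0, hc⟩ := h
  have h1 := H_le hS
  have h2 := V_le hS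
  have h3 := card_le_edges hc
  have h4 := holes hc hS
  rw [h0] at h1 h2 h3 h4
  set w := #(P.image Prod.fst)
  set k := #(P.image Prod.snd)
  by_contra hn
  have h5 : w ≤ 10 := by omega
  have h6 : k ≤ 10 := by omega
  interval_cases w <;> interval_cases k <;> omega

/-! ### The example -/

/-- the cells of a `21`-omino, each one after the first adjacent to an earlier one -/
def L21 : List (ℤ × ℤ) :=
  [(0, 5), (1, 5), (1, 4), (1, 3), (0, 3), (0, 2), (0, 1), (0, 0), (1, 1), (2, 3), (2, 2), (3, 2),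
    (3, 1), (3, 0), (2, 0), (4, 0), (4, 2), (4, 3), (4, 4), (3, 4), (3, 5)]

instance : DecidableRel grid.Adj := fun p q => by
  unfold grid
  infer_instance

theorem conn_of_list (l : List (ℤ × ℤ)) (hne : 0 < l.length)
    (h : ∀ i ∈ range l.length, i = 0 ∨ ∃ j ∈ range i, grid.Adj (l.getD j 0) (l.getD i 0)) :
    (grid.induce ((l.toFinset : Finset (ℤ × ℤ)) : Set (ℤ × ℤ))).Connected := by
  have hmem : ∀ i, i < l.length → l.getD i 0 ∈ ((l.toFinset : Finset (ℤ × ℤ)) : Set (ℤ × ℤ)) := by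
    intro i hi
    rw [Finset.mem_coe, List.mem_toFinset, List.getD_eq_getElem l 0 hi]
    exact List.getElem_mem hi
  have key : ∀ i (hi : i < l.length), (grid.induce ((l.toFinset : Finset (ℤ × ℤ)) :
      Set (ℤ × ℤ))).Reachable ⟨l.getD 0 0, hmem 0 hne⟩ ⟨l.getD i 0, hmem i hi⟩ := by
    intro i
    induction i using Nat.strong_induction_on with
    | _ i ih =>
      intro hi
      rcases h i (Finset.mem_range.mpr hi) with rfl | ⟨j, hj, hadj⟩
      · exact SimpleGraph.Reachable.refl _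
      · rw [Finset.mem_range] at hj
        refine (ih j hj (hj.trans hi)).trans (SimpleGraph.Adj.reachable ?_)
        simpa only [SimpleGraph.comap_adj, Function.Embedding.subtype_apply] using hadj
  haveI : Nonempty ((l.toFinset : Finset (ℤ × ℤ)) : Set (ℤ × ℤ)) := ⟨⟨_, hmem 0 hne⟩⟩
  refine SimpleGraph.Connected.mk ?_
  have h1 : ∀ p : ((l.toFinset : Finset (ℤ × ℤ)) : Set (ℤ × ℤ)),
      (grid.induce ((l.toFinset : Finset (ℤ × ℤ)) : Set (ℤ × ℤ))).Reachable
        ⟨l.getD 0 0, hmem 0 hne⟩ p := by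
    rintro ⟨p, hp⟩
    rw [Finset.mem_coe, List.mem_toFinset] at hp
    obtain ⟨i, hi, rfl⟩ := List.getElem_of_mem hp
    have := key i hi
    simpa only [List.getD_eq_getElem l 0 hi] using this
  intro p q
  exact (h1 p).symm.trans (h1 q)

theorem not_ordConnected {s : Set ℤ} {x y z : ℤ} (hxy : x < y) (hyz : y < z) (hx : x ∈ s)
    (hy : y ∉ s) (hz : z ∈ s) : ¬ s.OrdConnected :=
  fun h => hy (h.out hx hz ⟨hxy.le, hyz.le⟩)

theorem example21 : IsOmino 21 L21.toFinset ∧ PropS L21.toFinset := by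
  refine ⟨⟨by decide +kernel, conn_of_list L21 (by decide) (by decide +kernel)⟩, ?_, ?_⟩
  · rintro b ⟨a, ha⟩
    have h : ∀ p ∈ L21.toFinset, ∃ q ∈ L21.toFinset, ∃ r ∈ L21.toFinset, ∃ y ∈ ({1, 2, 3} : Finset ℤ),
        q.2 = p.2 ∧ r.2 = p.2 ∧ q.1 < y ∧ y < r.1 ∧ (y, p.2) ∉ L21.toFinset := by decide +kernel
    obtain ⟨⟨q1, q2⟩, hq, ⟨r1, r2⟩, hr, y, _, h1, h2, h3, h4, h5⟩ := h (a, b) ha
    simp only at h1 h2 h3 h4 h5
    subst h1 h2
    exact not_ordConnected h3 h4 hq h5 hr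
  · rintro a ⟨b, hb⟩
    have h : ∀ p ∈ L21.toFinset, ∃ q ∈ L21.toFinset, ∃ r ∈ L21.toFinset,
        ∃ y ∈ ({1, 2, 3, 4} : Finset ℤ),
        q.1 = p.1 ∧ r.1 = p.1 ∧ q.2 < y ∧ y < r.2 ∧ (p.1, y) ∉ L21.toFinset := by decide +kernel
    obtain ⟨⟨q1, q2⟩, hq, ⟨r1, r2⟩, hr, y, _, h1, h2, h3, h4, h5⟩ := h (a, b) hb
    simp only at h1 h2 h3 h4 h5
    subst h1 h2
    exact not_ordConnected h3 h4 hq h5 hr

/-- **Main result.** The least positive `n` for which there is an `n`-omino with property (S) is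
`21`. -/
theorem result : IsLeast {n : ℕ | 0 < n ∧ ∃ P, IsOmino n P ∧ PropS P} 21 := by
  refine ⟨⟨by norm_num, _, example21⟩, ?_⟩
  rintro n ⟨_, P, h, hS⟩
  exact lower h hS

end Pool.Agent.Results.MP_ae2f9f_co.LeastSize
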